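import Mathlib
import Pool.Agent.H786.G.R_pool_sql_team_seeded_63374d34.N564.RF3.Warp

set_option autoImplicit false
set_option linter.all false
open scoped ContDiff Manifold Topology Matrix
open Set

namespace Pool.Agent.N564.RF3

open Pool.Agent.QTot (Eu Mt pd Jac Gam Ric pull)
open Pool.Agent.QTot
open Pool.Agent.H858R2 (En ctarget ctrn)
open Pool.Agent.N535 (Krf Kff Ef Ff pullA Pinv S3 E4 ambG JP)

/-- a partial derivative is the derivative of the restriction to the coordinate line -/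
theorem pd_of_line {n : ℕ} {f : Eu n → ℝ} {u : Eu n} (i : Fin n) (hf : DifferentiableAt ℝ f u)
    {d : ℝ} (h : HasDerivAt (fun t => f (Function.update u i t)) d (u i)) : pd i f u = d := by
  have h1 : HasDerivAt (Function.update u i) (Pi.single i (1:ℝ)) (u i) := by
    exact hasDerivAt_update u i (u i)
  have h2 : HasDerivAt (fun t => f (Function.update u i t)) (fderiv ℝ f u (Pi.single i 1)) (u i) := by
    have h3 : HasFDerivAt f (fderiv ℝ f u) (Function.update u i (u i)) := by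
      rw [Function.update_eq_self]; exact hf.hasFDerivAt
    exact h3.comp_hasDerivAt (u i) h1
  exact h2.unique h

/-- orthonormal frames of `ℝ³` -/
theorem frame (a b c : ℝ) (h : a ^ 2 + b ^ 2 + c ^ 2 = 1) :
    ∃ e f : Fin 3 → ℝ, e 0 ^ 2 + e 1 ^ 2 + e 2 ^ 2 = 1 ∧ f 0 ^ 2 + f 1 ^ 2 + f 2 ^ 2 = 1 ∧
      a * e 0 + b * e 1 + c * e 2 = 0 ∧ a * f 0 + b * f 1 + c * f 2 = 0 ∧
      e 0 * f 0 + e 1 * f 1 + e 2 * f 2 = 0 := by
  by_cases h0 : a ^ 2 + b ^ 2 = 0
  · have ha : a = 0 := by nlinarith [sq_nonneg a, sq_nonneg b]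
    have hb : b = 0 := by nlinarith [sq_nonneg a, sq_nonneg b]
    refine ⟨![1, 0, 0], ![0, 1, 0], ?_, ?_, ?_, ?_, ?_⟩ <;> simp [ha, hb]
  · have hp : 0 < a ^ 2 + b ^ 2 := lt_of_le_of_ne (by positivity) (Ne.symm h0)
    set s := Real.sqrt (a ^ 2 + b ^ 2) with hs
    have hsp : 0 < s := Real.sqrt_pos.2 hp
    have hs2 : s ^ 2 = a ^ 2 + b ^ 2 := Real.sq_sqrt hp.le
    refine ⟨![-b / s, a / s, 0], ![-c * a / s, -c * b / s, s], ?_, ?_, ?_, ?_, ?_⟩
    · simp only [Matrix.cons_val_zero, Matrix.cons_val_one, Matrix.cons_val]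
      field_simp
      linear_combination -hs2
    · simp only [Matrix.cons_val_zero, Matrix.cons_val_one, Matrix.cons_val]
      field_simp
      linear_combination (s ^ 2 - c ^ 2) * hs2 + s ^ 2 * h
    · simp only [Matrix.cons_val_zero, Matrix.cons_val_one, Matrix.cons_val]
      field_simp
      ring
    · simp only [Matrix.cons_val_zero, Matrix.cons_val_one, Matrix.cons_val]
      field_simp
      linear_combination c * hs2
    · simp only [Matrix.cons_val_zero, Matrix.cons_val_one, Matrix.cons_val]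
      field_simp
      ring

/-- stereographic parametrization of `S²`, one component -/
noncomputable def st (n e f p q : ℝ) : ℝ :=
  ((1 - (p ^ 2 + q ^ 2) / 4) * n + p * e + q * f) / (1 + (p ^ 2 + q ^ 2) / 4)

theorem den_pos (p q : ℝ) : 0 < 1 + (p ^ 2 + q ^ 2) / 4 := by positivity

theorem st_hasDeriv_p (n e f p q : ℝ) : HasDerivAt (fun t => st n e f t q)
    ((-p / (1 + (p ^ 2 + q ^ 2) / 4) ^ 2) * n
      + ((1 + (q ^ 2 - p ^ 2) / 4) / (1 + (p ^ 2 + q ^ 2) / 4) ^ 2) * e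
      + (-(p * q / 2) / (1 + (p ^ 2 + q ^ 2) / 4) ^ 2) * f) p := by
  have hd := (den_pos p q).ne'
  have h2 : HasDerivAt (fun t : ℝ => t ^ 2) (2 * p) p := by
    simpa using hasDerivAt_pow 2 p
  have h1 : HasDerivAt (fun t : ℝ => (1 - (t ^ 2 + q ^ 2) / 4) * n + t * e + q * f)
      (-(p / 2) * n + e) p :=
    ((((((h2.add_const (q ^ 2)).div_const 4).const_sub 1).mul_const n).add
      ((hasDerivAt_id p).mul_const e)).add_const (q * f)).congr_deriv (by ring)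
  have h3 : HasDerivAt (fun t : ℝ => 1 + (t ^ 2 + q ^ 2) / 4) (p / 2) p :=
    (((h2.add_const (q ^ 2)).div_const 4).const_add 1).congr_deriv (by ring)
  refine (h1.div h3 hd).congr_deriv ?_
  field_simp
  ring

theorem st_hasDeriv_q (n e f p q : ℝ) : HasDerivAt (fun t => st n e f p t)
    ((-q / (1 + (p ^ 2 + q ^ 2) / 4) ^ 2) * n
      + (-(p * q / 2) / (1 + (p ^ 2 + q ^ 2) / 4) ^ 2) * e
      + ((1 + (p ^ 2 - q ^ 2) / 4) / (1 + (p ^ 2 + q ^ 2) / 4) ^ 2) * f) q := by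
  have h := st_hasDeriv_p n f e q p
  have e1 : (fun t => st n f e t p) = (fun t => st n e f p t) := by
    funext t
    unfold st
    have : (1:ℝ) + (t ^ 2 + p ^ 2) / 4 = 1 + (p ^ 2 + t ^ 2) / 4 := by ring
    rw [this]
    congr 1
    ring
  rw [e1] at h
  refine h.congr_deriv ?_
  have : (1:ℝ) + (q ^ 2 + p ^ 2) / 4 = 1 + (p ^ 2 + q ^ 2) / 4 := by ring
  rw [this]
  ring

/-- `∂_p` of `st` -/
noncomputable def stp (n e f p q : ℝ) : ℝ :=
  (-p / (1 + (p ^ 2 + q ^ 2) / 4) ^ 2) * n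
      + ((1 + (q ^ 2 - p ^ 2) / 4) / (1 + (p ^ 2 + q ^ 2) / 4) ^ 2) * e
      + (-(p * q / 2) / (1 + (p ^ 2 + q ^ 2) / 4) ^ 2) * f
/-- `∂_q` of `st` -/
noncomputable def stq (n e f p q : ℝ) : ℝ :=
  (-q / (1 + (p ^ 2 + q ^ 2) / 4) ^ 2) * n
      + (-(p * q / 2) / (1 + (p ^ 2 + q ^ 2) / 4) ^ 2) * e
      + ((1 + (p ^ 2 - q ^ 2) / 4) / (1 + (p ^ 2 + q ^ 2) / 4) ^ 2) * f

/-- sum over the last three coordinates -/
def dB (v w : Fin 4 → ℝ) : ℝ := v 1 * w 1 + v 2 * w 2 + v 3 * w 3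

/-- orthonormality -/
structure ONB (n e f : Fin 4 → ℝ) : Prop where
  nn : dB n n = 1
  ee : dB e e = 1
  ff : dB f f = 1
  ne : dB n e = 0
  nf : dB n f = 0
  ef : dB e f = 0

theorem dot_keyB {n e f : Fin 4 → ℝ} (h : ONB n e f) (a b c a' b' c' : ℝ) :
    dB (fun i => a * n i + b * e i + c * f i) (fun i => a' * n i + b' * e i + c' * f i) =
      a * a' + b * b' + c * c' := by
  obtain ⟨h1, h2, h3, h4, h5, h6⟩ := h
  simp only [dB] at *
  linear_combination (a * a') * h1 + (b * b') * h2 + (c * c') * h3 + (a * b' + b * a') * h4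
    + (a * c' + c * a') * h5 + (b * c' + c * b') * h6

theorem st_eq (n e f p q : ℝ) : st n e f p q =
    ((1 - (p ^ 2 + q ^ 2) / 4) / (1 + (p ^ 2 + q ^ 2) / 4)) * n + (p / (1 + (p ^ 2 + q ^ 2) / 4)) * e
      + (q / (1 + (p ^ 2 + q ^ 2) / 4)) * f := by
  unfold st
  ring

section
variable {n e f : Fin 4 → ℝ} (p q : ℝ)

/-- the three vectors -/
noncomputable def vs (n e f : Fin 4 → ℝ) (p q : ℝ) (a : Fin 4) : ℝ := st (n a) (e a) (f a) p q
noncomputable def vp (n e f : Fin 4 → ℝ) (p q : ℝ) (a : Fin 4) : ℝ := stp (n a) (e a) (f a) p q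
noncomputable def vq (n e f : Fin 4 → ℝ) (p q : ℝ) (a : Fin 4) : ℝ := stq (n a) (e a) (f a) p q

theorem vs_eq : vs n e f p q = fun a =>
    ((1 - (p ^ 2 + q ^ 2) / 4) / (1 + (p ^ 2 + q ^ 2) / 4)) * n a
      + (p / (1 + (p ^ 2 + q ^ 2) / 4)) * e a + (q / (1 + (p ^ 2 + q ^ 2) / 4)) * f a := by
  funext a; exact st_eq _ _ _ _ _
theorem vp_eq : vp n e f p q = fun a => (-p / (1 + (p ^ 2 + q ^ 2) / 4) ^ 2) * n a
      + ((1 + (q ^ 2 - p ^ 2) / 4) / (1 + (p ^ 2 + q ^ 2) / 4) ^ 2) * e a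
      + (-(p * q / 2) / (1 + (p ^ 2 + q ^ 2) / 4) ^ 2) * f a := rfl
theorem vq_eq : vq n e f p q = fun a => (-q / (1 + (p ^ 2 + q ^ 2) / 4) ^ 2) * n a
      + (-(p * q / 2) / (1 + (p ^ 2 + q ^ 2) / 4) ^ 2) * e a
      + ((1 + (p ^ 2 - q ^ 2) / 4) / (1 + (p ^ 2 + q ^ 2) / 4) ^ 2) * f a := rfl

theorem B_ss (h : ONB n e f) : dB (vs n e f p q) (vs n e f p q) = 1 := by
  rw [vs_eq, dot_keyB h]
  have hd := (den_pos p q).ne'
  field_simp
  ring
theorem B_sp (h : ONB n e f) : dB (vs n e f p q) (vp n e f p q) = 0 := by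
  rw [vs_eq, vp_eq, dot_keyB h]
  have hd := (den_pos p q).ne'
  field_simp
  ring
theorem B_sq (h : ONB n e f) : dB (vs n e f p q) (vq n e f p q) = 0 := by
  rw [vs_eq, vq_eq, dot_keyB h]
  have hd := (den_pos p q).ne'
  field_simp
  ring
theorem B_pp (h : ONB n e f) : dB (vp n e f p q) (vp n e f p q) = sg p q := by
  rw [vp_eq, dot_keyB h, sg]
  have hd := (den_pos p q).ne'
  field_simp
  ring
theorem B_pq (h : ONB n e f) : dB (vp n e f p q) (vq n e f p q) = 0 := by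
  rw [vp_eq, vq_eq, dot_keyB h]
  have hd := (den_pos p q).ne'
  field_simp
  ring
theorem B_qq (h : ONB n e f) : dB (vq n e f p q) (vq n e f p q) = sg p q := by
  rw [vq_eq, dot_keyB h, sg]
  have hd := (den_pos p q).ne'
  field_simp
  ring
end

theorem dB_comm (v w : Fin 4 → ℝ) : dB v w = dB w v := by simp only [dB]; ring
theorem dB_smul (c d : ℝ) (v w : Fin 4 → ℝ) :
    dB (fun a => c * v a) (fun a => d * w a) = c * d * dB v w := by simp only [dB]; ring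
theorem d4_dB (v w : Fin 4 → ℝ) : d4 v w = v 0 * w 0 + dB v w := by simp only [d4, dB]; ring

/-- the domain of the coordinates -/
def Dm : Set (Eu 3) := {u | u 0 ∈ Ioo (-1 : ℝ) 1}

theorem isOpen_Dm : IsOpen Dm := isOpen_Ioo.preimage (continuous_apply 0)

/-- radius of the sphere `x₀ = x` -/
noncomputable def rho (x : ℝ) : ℝ := Real.sqrt (1 - x ^ 2)

theorem one_sub_pos {x : ℝ} (hx : x ∈ Ioo (-1 : ℝ) 1) : 0 < 1 - x ^ 2 := by
  nlinarith [hx.1, hx.2]

theorem rho_pos {x : ℝ} (hx : x ∈ Ioo (-1 : ℝ) 1) : 0 < rho x := Real.sqrt_pos.2 (one_sub_pos hx)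

theorem rho_sq {x : ℝ} (hx : x ∈ Ioo (-1 : ℝ) 1) : rho x ^ 2 = 1 - x ^ 2 :=
  Real.sq_sqrt (one_sub_pos hx).le

theorem rho_hd {x : ℝ} (hx : x ∈ Ioo (-1 : ℝ) 1) : HasDerivAt rho (-x / rho x) x := by
  have h1 : HasDerivAt (fun x : ℝ => 1 - x ^ 2) (-(2 * x)) x := by
    have := (hasDerivAt_pow 2 x).const_sub 1
    simpa using this
  have h2 := h1.sqrt (one_sub_pos hx).ne'
  refine h2.congr_deriv ?_
  have h3 : rho x = Real.sqrt (1 - x ^ 2) := rfl
  rw [← h3]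
  have := (rho_pos hx).ne'
  field_simp

theorem rho_smooth : ContDiffOn ℝ ∞ (fun u : Eu 3 => rho (u 0)) Dm := by
  intro u hu
  have h1 : ContDiffAt ℝ ∞ (fun u : Eu 3 => 1 - (u 0) ^ 2) u :=
    contDiffAt_const.sub ((contDiff_apply ℝ ℝ 0).contDiffAt.pow 2)
  exact (h1.sqrt (one_sub_pos hu).ne').contDiffWithinAt

/-- the parametrization -/
noncomputable def Psi (n e f : Fin 4 → ℝ) (u : Eu 3) (a : Fin 4) : ℝ :=
  if a = 0 then u 0 else rho (u 0) * vs n e f (u 1) (u 2) a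

theorem st_smooth {m : ℕ} (n e f : ℝ) {P Q : Eu m → ℝ} (hP : ContDiff ℝ ∞ P) (hQ : ContDiff ℝ ∞ Q) :
    ContDiff ℝ ∞ (fun u => st n e f (P u) (Q u)) := by
  unfold st
  refine ContDiff.div ?_ ?_ (fun u => (den_pos _ _).ne')
  · fun_prop
  · fun_prop

theorem Psi_smooth (n e f : Fin 4 → ℝ) : ContDiffOn ℝ ∞ (Psi n e f) Dm := by
  rw [contDiffOn_pi]
  intro a
  unfold Psi
  split_ifs with h
  · exact (contDiff_apply ℝ ℝ 0).contDiffOn
  · refine ContDiffOn.mul rho_smooth (st_smooth _ _ _ ?_ ?_).contDiffOn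
    · exact contDiff_apply ℝ ℝ 1
    · exact contDiff_apply ℝ ℝ 2

/-- the columns of the Jacobian on the last three coordinates -/
noncomputable def JB (n e f : Fin 4 → ℝ) (u : Eu 3) (i : Fin 3) (a : Fin 4) : ℝ :=
  match i with
  | 0 => (-(u 0) / rho (u 0)) * vs n e f (u 1) (u 2) a
  | 1 => rho (u 0) * vp n e f (u 1) (u 2) a
  | 2 => rho (u 0) * vq n e f (u 1) (u 2) a

theorem JP_Psi (n e f : Fin 4 → ℝ) {u : Eu 3} (hu : u ∈ Dm) (a : Fin 4) (i : Fin 3) :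
    JP (Psi n e f) u a i = if a = 0 then (if i = 0 then 1 else 0) else JB n e f u i a := by
  have hdiff : DifferentiableAt ℝ (fun y => Psi n e f y a) u :=
    (((contDiffOn_pi.1 (Psi_smooth n e f) a).contDiffAt (isOpen_Dm.mem_nhds hu)).differentiableAt
      (by simp))
  simp only [JP, Matrix.of_apply]
  refine pd_of_line i hdiff ?_
  by_cases ha : a = 0
  · simp only [Psi, if_pos ha]
    fin_cases i
    · simp only [Function.update_self, Fin.zero_eta, Fin.isValue, ne_eq, if_true]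
      exact hasDerivAt_id _
    · simp only [Function.update_self, Fin.zero_eta, Fin.isValue, ne_eq, Fin.reduceEq,
        not_false_eq_true, Function.update_of_ne, Fin.mk_one, zero_ne_one, one_ne_zero, if_false]
      exact hasDerivAt_const _ _
    · simp only [Function.update_self, Fin.zero_eta, Fin.isValue, ne_eq, Fin.reduceEq,
        not_false_eq_true, Function.update_of_ne, Fin.reduceFinMk, if_false]
      exact hasDerivAt_const _ _
  · simp only [Psi, if_neg ha]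
    fin_cases i
    · simp only [JB, Function.update_self, Fin.zero_eta, Fin.isValue, ne_eq, Fin.reduceEq,
        not_false_eq_true, Function.update_of_ne, one_ne_zero]
      exact (rho_hd hu).mul_const _
    · simp only [JB, Function.update_self, Fin.zero_eta, Fin.isValue, ne_eq, Fin.reduceEq,
        not_false_eq_true, Function.update_of_ne, Fin.mk_one, zero_ne_one]
      exact (st_hasDeriv_p _ _ _ _ _).const_mul _
    · simp only [JB, Function.update_self, Fin.zero_eta, Fin.isValue, ne_eq, Fin.reduceEq,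
        not_false_eq_true, Function.update_of_ne, Fin.reduceFinMk]
      exact (st_hasDeriv_q _ _ _ _ _).const_mul _

/-- coefficients -/
noncomputable def gB (u : Eu 3) (i j : Fin 3) : ℝ :=
  match i, j with
  | 0, 0 => (-(u 0) / rho (u 0)) ^ 2
  | 1, 1 => rho (u 0) ^ 2 * sg (u 1) (u 2)
  | 2, 2 => rho (u 0) ^ 2 * sg (u 1) (u 2)
  | _, _ => 0

theorem dB_JB {n e f : Fin 4 → ℝ} (h : ONB n e f) (u : Eu 3) (i j : Fin 3) :
    dB (JB n e f u i) (JB n e f u j) = gB u i j := by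
  have hps : dB (vp n e f (u 1) (u 2)) (vs n e f (u 1) (u 2)) = 0 := by rw [dB_comm, B_sp _ _ h]
  have hqs : dB (vq n e f (u 1) (u 2)) (vs n e f (u 1) (u 2)) = 0 := by rw [dB_comm, B_sq _ _ h]
  have hqp : dB (vq n e f (u 1) (u 2)) (vp n e f (u 1) (u 2)) = 0 := by rw [dB_comm, B_pq _ _ h]
  fin_cases i <;> fin_cases j <;>
    (change dB (fun a => _ * _) (fun a => _ * _) = _
     rw [dB_smul]
     simp only [B_ss _ _ h, B_sp _ _ h, B_sq _ _ h, B_pp _ _ h, B_pq _ _ h, B_qq _ _ h, hps, hqs, hqp, gB,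
       mul_zero, mul_one, Fin.zero_eta, Fin.mk_one, Fin.reduceFinMk]
     try ring)

theorem sum_Psi {n e f : Fin 4 → ℝ} (h : ONB n e f) {u : Eu 3} (hu : u ∈ Dm) :
    ∑ i, Psi n e f u i ^ 2 = 1 := by
  have h2 := B_ss (u 1) (u 2) h
  simp only [dB] at h2
  have h3 := rho_sq hu
  rw [Fin.sum_univ_four]
  have e0 : Psi n e f u 0 = u 0 := by simp [Psi]
  have e1 : Psi n e f u 1 = rho (u 0) * vs n e f (u 1) (u 2) 1 := by simp [Psi]
  have e2 : Psi n e f u 2 = rho (u 0) * vs n e f (u 1) (u 2) 2 := by simp [Psi]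
  have e3 : Psi n e f u 3 = rho (u 0) * vs n e f (u 1) (u 2) 3 := by simp [Psi]
  rw [e0, e1, e2, e3]
  linear_combination (rho (u 0)) ^ 2 * h2 + h3

theorem pull_Psi {n e f : Fin 4 → ℝ} (h : ONB n e f) (α β : ℝ → ℝ) {u : Eu 3} (hu : u ∈ Dm) :
    pullA (Psi n e f) α β u = DG (Ef α β) (Ff α) u := by
  ext i j
  rw [pullA_entry]
  have h0 : Psi n e f u 0 = u 0 := by simp [Psi]
  have h1 : d4 (fun a => JP (Psi n e f) u a i) (fun a => JP (Psi n e f) u a j) =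
      (if i = 0 then 1 else 0) * (if j = 0 then 1 else 0) + gB u i j := by
    rw [d4_dB, ← dB_JB h]
    simp [dB, JP_Psi n e f hu]
  rw [h0, h1, JP_Psi n e f hu, JP_Psi n e f hu]
  have h3 := rho_sq hu
  have h4 := (rho_pos hu).ne'
  have h5 := (one_sub_pos hu).ne'
  have h6 : (-(u 0) / rho (u 0)) ^ 2 = (u 0) ^ 2 / (1 - (u 0) ^ 2) := by
    rw [div_pow, h3, neg_sq]
  fin_cases i <;> fin_cases j <;> simp [gB, DG, dgv, Ef, Ff, Matrix.diagonal]
  · rw [h6]
    field_simp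
    ring
  · rw [h3]; ring
  · rw [h3]; ring

/-- `Psi` at the base point -/
theorem Psi_pt (n e f : Fin 4 → ℝ) (r : ℝ) (a : Fin 4) :
    Psi n e f (pt r) a = if a = 0 then r else rho r * n a := by
  simp [Psi, pt, vs, st]

theorem param_exists (x : Fin 4 → ℝ) (hx : ∑ i, x i ^ 2 = 1) (h0 : x 0 ∈ Ioo (-1 : ℝ) 1) :
    ∃ (Ψ : Eu 3 → (Fin 4 → ℝ)), ContDiffOn ℝ ∞ Ψ Dm ∧ Ψ (pt (x 0)) = x ∧
      (∀ u ∈ Dm, ∑ i, Ψ u i ^ 2 = 1) ∧ (∀ u, Ψ u 0 = u 0) ∧
      ∀ (α β : ℝ → ℝ), ∀ u ∈ Dm, pullA Ψ α β u = DG (Ef α β) (Ff α) u := by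
  set s := rho (x 0) with hs
  have hs0 : 0 < s := rho_pos h0
  have hs2 : s ^ 2 = 1 - x 0 ^ 2 := rho_sq h0
  rw [Fin.sum_univ_four] at hx
  have hB : (x 1 / s) ^ 2 + (x 2 / s) ^ 2 + (x 3 / s) ^ 2 = 1 := by
    field_simp
    linear_combination hx - hs2
  obtain ⟨e', f', b1, b2, b3, b4, b5⟩ := frame _ _ _ hB
  have hnb : ONB ![0, x 1 / s, x 2 / s, x 3 / s] ![0, e' 0, e' 1, e' 2]
      ![0, f' 0, f' 1, f' 2] := by
    constructor
    · simp only [dB]; simp; linear_combination hB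
    · simp only [dB]; simp; linear_combination b1
    · simp only [dB]; simp; linear_combination b2
    · simp only [dB]; simp; linear_combination b3
    · simp only [dB]; simp; linear_combination b4
    · simp only [dB]; simp; linear_combination b5
  refine ⟨Psi _ _ _, Psi_smooth _ _ _, ?_, fun u hu => sum_Psi hnb hu, fun u => by simp [Psi],
    fun α β u hu => pull_Psi hnb α β hu⟩
  funext a
  rw [Psi_pt]
  have hs' : s ≠ 0 := hs0.ne'
  rw [← hs]
  fin_cases a <;> simp <;> field_simp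

theorem det_DG {u : Eu 3} (hu : u ∈ Dm) :
    (DG (Ef (fun _ => 1) (fun _ => 0)) (Ff fun _ => 1) u).det ≠ 0 := by
  rw [DG, Matrix.det_diagonal, Fin.prod_univ_three]
  have h1 := one_sub_pos hu
  have h2 : 0 < sg (u 1) (u 2) := by
    unfold sg
    have := den_pos (u 1) (u 2)
    positivity
  simp only [dgv, Ef, Ff]
  have h3 : 0 < (1 : ℝ) / (1 - u 0 ^ 2) + 0 := by positivity
  have h4 : 0 < 1 * (1 - u 0 ^ 2) * sg (u 1) (u 2) := by positivity
  exact (mul_pos (mul_pos h3 h4) h4).ne'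

theorem pt_mem {r : ℝ} (hr : r ∈ Ioo (-1 : ℝ) 1) : pt r ∈ Dm := by
  show (pt r) 0 ∈ Ioo (-1 : ℝ) 1
  simpa [pt] using hr

theorem chart_pull (e : OpenPartialHomeomorph S3 (En 3)) (he : e ∈ atlas (En 3) S3) (y₀ : Eu 3)
    (h0 : Pinv e y₀ 0 ∈ Ioo (-1 : ℝ) 1) :
    ∃ (χ : Eu 3 → Eu 3), ContDiffAt ℝ ∞ χ (pt (Pinv e y₀ 0)) ∧ χ (pt (Pinv e y₀ 0)) = y₀ ∧
      (Jac χ (pt (Pinv e y₀ 0))).det ≠ 0 ∧
      ∀ α β : ℝ → ℝ, pull χ (pullA (Pinv e) α β) =ᶠ[𝓝 (pt (Pinv e y₀ 0))] DG (Ef α β) (Ff α) := by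
  obtain ⟨htar, P, R, O, hP, hO, hR, hPO, hRP, hPe, hsrc, hRe, hPR, hsum⟩ := chart_pkg e he
  have hPinv : Pinv e = P := by
    funext y; exact hPe y
  rw [hPinv] at h0 ⊢
  obtain ⟨Ψ, hΨ, hΨx, hΨs, hΨz, hΨG⟩ := param_exists (P y₀) (hsum y₀) h0
  set r := P y₀ 0 with hr
  have hpD : pt r ∈ Dm := pt_mem h0
  have hD : ∀ᶠ u in 𝓝 (pt r), u ∈ Dm := isOpen_Dm.mem_nhds hpD
  have hΨc : ContinuousAt Ψ (pt r) := (hΨ.contDiffAt (isOpen_Dm.mem_nhds hpD)).continuousAt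
  have hmem : ∀ᶠ u in 𝓝 (pt r), Ψ u ∈ O :=
    hΨc.eventually_mem (hO.mem_nhds (by rw [hΨx]; exact hPO y₀))
  have hPχ : ∀ u ∈ Dm, Ψ u ∈ O → P (R (Ψ u)) = Ψ u := by
    intro u huD hu
    have hmemS : (WithLp.toLp 2 (Ψ u) : EuclideanSpace ℝ (Fin 4)) ∈
        Metric.sphere (0 : EuclideanSpace ℝ (Fin 4)) 1 := by
      rw [mem_sphere_zero_iff_norm, EuclideanSpace.norm_eq]
      have : ∑ i, ‖(WithLp.toLp 2 (Ψ u) : EuclideanSpace ℝ (Fin 4)) i‖ ^ 2 = 1 := by
        simpa using hΨs u huD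
      rw [this, Real.sqrt_one]
    have h2 : N535.amb ⟨_, hmemS⟩ = Ψ u := rfl
    have h3 := hPR ⟨_, hmemS⟩ ((hsrc _).2 (by rw [h2]; exact hu))
    rw [h2] at h3
    exact h3
  have hχs : ∀ u ∈ Dm, Ψ u ∈ O → ContDiffAt ℝ ∞ (fun u => R (Ψ u)) u := by
    intro u huD hu
    exact ((hR.contDiffAt (hO.mem_nhds hu))).comp u (hΨ.contDiffAt (isOpen_Dm.mem_nhds huD))
  have hkey : ∀ α β : ℝ → ℝ, pull (fun u => R (Ψ u)) (pullA P α β) =ᶠ[𝓝 (pt r)]
      DG (Ef α β) (Ff α) := by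
    intro α β
    filter_upwards [hmem.eventually_nhds, hD.eventually_nhds] with u hu huD
    have hu0 : Ψ u ∈ O := hu.self_of_nhds
    have hu1 : u ∈ Dm := huD.self_of_nhds
    have h4 : (fun v => P (R (Ψ v))) =ᶠ[𝓝 u] Ψ := by
      filter_upwards [hu, huD] with v hv hv'
      exact hPχ v hv' hv
    have h5 : JP Ψ u = JP P (R (Ψ u)) * Jac (fun u => R (Ψ u)) u := by
      rw [← JP_congr h4]
      exact JP_comp (φ := fun u => R (Ψ u)) ((hχs u hu1 hu0).differentiableAt (by simp))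
        (hP.differentiable (by simp) _)
    rw [← hΨG α β u hu1]
    simp only [pull, pullA]
    rw [h5, Matrix.transpose_mul, hPχ u hu1 hu0]
    simp only [Matrix.mul_assoc]
  refine ⟨fun u => R (Ψ u), hχs _ hpD hmem.self_of_nhds, ?_, ?_, hkey⟩
  · simp only
    rw [hΨx, hRP]
  · intro hdet
    have h6 := (hkey (fun _ => 1) (fun _ => 0)).self_of_nhds
    apply det_DG hpD
    rw [← h6, pull, Matrix.det_mul, hdet, mul_zero]

theorem good_dense (e : OpenPartialHomeomorph S3 (En 3)) (he : e ∈ atlas (En 3) S3) :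
    Dense {y : Eu 3 | Pinv e y 0 ∈ Ioo (-1 : ℝ) 1} := by
  obtain ⟨htar, P, R, O, hP, hO, hR, hPO, hRP, hPe, hsrc, hRe, hPR, hsum⟩ := chart_pkg e he
  have hPinv : Pinv e = P := by
    funext y; exact hPe y
  rw [hPinv]
  have hinj : Function.Injective P := fun a b h => by rw [← hRP a, ← hRP b, h]
  have hsub : {y : Eu 3 | P y 0 ∈ Ioo (-1 : ℝ) 1}ᶜ ⊆ P ⁻¹' {![1, 0, 0, 0], ![-1, 0, 0, 0]} := by
    intro y hy
    have h1 := hsum y
    have h2 := x0_mem h1
    rw [Fin.sum_univ_four] at h1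
    have h3 : P y 0 = 1 ∨ P y 0 = -1 := by
      by_contra hne
      push Not at hne
      exact hy ⟨lt_of_le_of_ne h2.1 (Ne.symm hne.2), lt_of_le_of_ne h2.2 hne.1⟩
    have h4 : P y 0 ^ 2 = 1 := by rcases h3 with h | h <;> rw [h] <;> norm_num
    have h5 : P y 1 = 0 := by nlinarith [sq_nonneg (P y 1), sq_nonneg (P y 2), sq_nonneg (P y 3)]
    have h6 : P y 2 = 0 := by nlinarith [sq_nonneg (P y 1), sq_nonneg (P y 2), sq_nonneg (P y 3)]
    have h7 : P y 3 = 0 := by nlinarith [sq_nonneg (P y 1), sq_nonneg (P y 2), sq_nonneg (P y 3)]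
    rcases h3 with h | h
    · left
      funext a
      fin_cases a
      · exact h
      · exact h5
      · exact h6
      · exact h7
    · right
      show P y = _
      funext a
      fin_cases a
      · exact h
      · exact h5
      · exact h6
      · exact h7
  have hfin : ({y : Eu 3 | P y 0 ∈ Ioo (-1 : ℝ) 1}ᶜ).Countable :=
    ((Set.toFinite _).preimage (hinj.injOn)).countable.mono hsub
  have := Set.Countable.dense_compl ℝ hfin
  rwa [compl_compl] at this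

end Pool.Agent.N564.RF3
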