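import Mathlib
import Pool.Agent.H786.G.R_pool_sql_team_seeded_63374d34.N564.RF3.Param

set_option autoImplicit false
set_option linter.all false
open scoped ContDiff Manifold Topology Matrix
open Set

namespace Pool.Agent.N564.RF3

open Pool.Agent.QTot (Eu Mt pd Jac Gam Ric pull)
open Pool.Agent.QTot
open Pool.Agent.H858R2 (En ctarget ctrn)
open Pool.Agent.N535 (Krf Kff Ef Ff pullA Pinv S3 E4 ambG JP PosAB Scal StScal StRicci StVal StMetric)

theorem inv_cont {n : ℕ} {G : Eu n → Mt n} (hG : ∀ i j, ContDiff ℝ ∞ (fun y => G y i j))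
    (hd : ∀ y, (G y).det ≠ 0) (i j : Fin n) : Continuous (fun y => (G y)⁻¹ i j) := by
  have : ContDiff ℝ 1 (fun y => (G y)⁻¹ i j) := by
    rw [contDiff_iff_contDiffAt]
    intro x
    exact N2.inv_smooth (k := 1) (fun i j => ((hG i j).contDiffAt).of_le
      (WithTop.coe_le_coe.2 le_top)) (hd x) i j
  exact this.continuous

theorem ric_cont {n : ℕ} {G : Eu n → Mt n} (hG : ∀ i j, ContDiff ℝ ∞ (fun y => G y i j))
    (hd : ∀ y, (G y).det ≠ 0) (i j : Fin n) : Continuous (fun y => Ric G y i j) := by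
  have h1 : ∀ k i j, ContDiff ℝ 1 (Gam G k i j) := by
    intro k i j
    rw [contDiff_iff_contDiffAt]
    intro x
    exact N2.gam_smooth (k := 1) (fun i j => ((hG i j).contDiffAt).of_le (WithTop.coe_le_coe.2 le_top)) (hd x) k i j
  have h2 : ∀ k i j, Continuous (Gam G k i j) := fun k i j => (h1 k i j).continuous
  have h3 : ∀ m k i j, Continuous (pd m (Gam G k i j)) := by
    intro m k i j
    have : ContDiff ℝ 0 (pd m (Gam G k i j)) := by
      rw [contDiff_iff_contDiffAt]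
      intro x
      exact N2.pd_smooth (k := 0) ((h1 k i j).contDiffAt)
    exact this.continuous
  simp only [Ric, Matrix.of_apply]
  fun_prop

theorem pullA_det (e : OpenPartialHomeomorph S3 (En 3)) (he : e ∈ atlas (En 3) S3)
    {α β : ℝ → ℝ} {O : Set ℝ} (hO : IsOpen O) (hI : Icc (-1 : ℝ) 1 ⊆ O)
    (hα : ContDiffOn ℝ ∞ α O) (hβ : ContDiffOn ℝ ∞ β O) (hpos : PosAB α β) (y : Eu 3) :
    (pullA (Pinv e) α β y).det ≠ 0 := by
  obtain ⟨g, hg⟩ := stMetric α β O hO hI hα hβ hpos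
  have h1 := g.posDef e he y (by
    have := (chart_pkg e he).1
    simp only [ctarget, mem_setOf_eq, this, mem_univ])
  rw [hg] at h1
  exact h1.det_pos.ne'

theorem conj_cancel {n : ℕ} {J X Y : Mt n} (hJ : J.det ≠ 0) (h : Jᵀ * X * J = Jᵀ * Y * J) : X = Y := by
  have h1 : IsUnit J.det := isUnit_iff_ne_zero.2 hJ
  have h2 : IsUnit Jᵀ.det := by rw [Matrix.det_transpose]; exact h1
  have h3 : Jᵀ * X = Jᵀ * Y := by
    rw [← Matrix.mul_nonsing_inv_cancel_right J (Jᵀ * X) h1, h,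
      Matrix.mul_nonsing_inv_cancel_right J (Jᵀ * Y) h1]
  rw [← Matrix.nonsing_inv_mul_cancel_left Jᵀ X h2, h3, Matrix.nonsing_inv_mul_cancel_left Jᵀ Y h2]

section
variable {α β : ℝ → ℝ} {O : Set ℝ}

theorem Ef_smooth (hO : IsOpen O) (hI : Icc (-1 : ℝ) 1 ⊆ O) (hα : ContDiffOn ℝ ∞ α O)
    (hβ : ContDiffOn ℝ ∞ β O) {r : ℝ} (hr : r ∈ Ioo (-1 : ℝ) 1) : ContDiffAt ℝ ∞ (Ef α β) r := by
  have h1 := hα.contDiffAt (hO.mem_nhds (hI ⟨hr.1.le, hr.2.le⟩))
  have h2 := hβ.contDiffAt (hO.mem_nhds (hI ⟨hr.1.le, hr.2.le⟩))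
  exact (h1.div (contDiffAt_const.sub (contDiffAt_id.pow 2)) (one_sub_pos hr).ne').add h2

theorem Ff_smooth (hO : IsOpen O) (hI : Icc (-1 : ℝ) 1 ⊆ O) (hα : ContDiffOn ℝ ∞ α O)
    {r : ℝ} (hr : r ∈ Ioo (-1 : ℝ) 1) : ContDiffAt ℝ ∞ (Ff α) r := by
  have h1 := hα.contDiffAt (hO.mem_nhds (hI ⟨hr.1.le, hr.2.le⟩))
  exact h1.mul (contDiffAt_const.sub (contDiffAt_id.pow 2))

theorem Ef_pos (hpos : PosAB α β) {r : ℝ} (hr : r ∈ Ioo (-1 : ℝ) 1) : 0 < Ef α β r := by
  have h1 := (hpos r ⟨hr.1.le, hr.2.le⟩).2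
  have h2 := one_sub_pos hr
  have h3 : Ef α β r = (α r + β r * (1 - r ^ 2)) / (1 - r ^ 2) := by
    unfold Ef
    field_simp
  rw [h3]
  positivity

theorem Ff_pos (hpos : PosAB α β) {r : ℝ} (hr : r ∈ Ioo (-1 : ℝ) 1) : 0 < Ff α r :=
  mul_pos (hpos r ⟨hr.1.le, hr.2.le⟩).1 (one_sub_pos hr)

/-- naturality at a generic point -/
theorem ric_good (e : OpenPartialHomeomorph S3 (En 3)) (he : e ∈ atlas (En 3) S3)
    (hO : IsOpen O) (hI : Icc (-1 : ℝ) 1 ⊆ O) (hα : ContDiffOn ℝ ∞ α O)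
    (hβ : ContDiffOn ℝ ∞ β O) (hpos : PosAB α β) (y : Eu 3) (hy : Pinv e y 0 ∈ Ioo (-1 : ℝ) 1) :
    ∃ J : Mt 3, J.det ≠ 0 ∧
      (∀ α' β' : ℝ → ℝ, Jᵀ * pullA (Pinv e) α' β' y * J =
        DG (Ef α' β') (Ff α') (pt (Pinv e y 0))) ∧
      Jᵀ * Ric (pullA (Pinv e) α β) y * J = Ric (DG (Ef α β) (Ff α)) (pt (Pinv e y 0)) := by
  have hsm : ∀ i j, ContDiff ℝ ∞ (fun y => pullA (Pinv e) α β y i j) := by
    obtain ⟨htar, P, R, O', hP, hO', hR, hPO, hRP, hPe, hsrc, hRe, hPR, hsum⟩ := chart_pkg e he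
    have hPinv : Pinv e = P := by
      funext y; exact hPe y
    rw [hPinv]
    exact pullA_smooth hP hsum hO hI hα hβ
  obtain ⟨χ, hχ, hχy, hdet, hpull⟩ := chart_pull e he y hy
  refine ⟨Jac χ (pt (Pinv e y 0)), hdet, ?_, ?_⟩
  · intro α' β'
    have h := (hpull α' β').self_of_nhds
    rw [pull, hχy] at h
    exact h
  · have hR := N2.ric_pull hχ hdet (G := pullA (Pinv e) α β) (fun i j => (hsm i j).contDiffAt)
      (Filter.Eventually.of_forall fun x => pullA_symm _ _ _ x)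
      (pullA_det e he hO hI hα hβ hpos _)
    rw [Pool.Agent.H858R2.MaxAux.Ric_congr (hpull α β), hχy] at hR
    exact hR.symm

theorem dot_trace {n : ℕ} (A B : Mt n) : ∑ i, ∑ j, A i j * B i j = (A * Bᵀ).trace := by
  simp [Matrix.trace, Matrix.mul_apply]

theorem scal_conj {n : ℕ} {J G R : Mt n} (hJ : J.det ≠ 0) :
    ((Jᵀ * G * J)⁻¹ * (Jᵀ * R * J)ᵀ).trace = (G⁻¹ * Rᵀ).trace := by
  have h1 : IsUnit J.det := isUnit_iff_ne_zero.2 hJ
  have h2 : IsUnit Jᵀ.det := by rw [Matrix.det_transpose]; exact h1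
  rw [Matrix.mul_inv_rev, Matrix.mul_inv_rev, Matrix.transpose_mul, Matrix.transpose_mul,
    Matrix.transpose_transpose]
  have e1 : J⁻¹ * (G⁻¹ * Jᵀ⁻¹) * (Jᵀ * (Rᵀ * J)) = J⁻¹ * (G⁻¹ * Rᵀ * J) := by
    have : Jᵀ⁻¹ * Jᵀ = 1 := Matrix.nonsing_inv_mul _ h2
    calc J⁻¹ * (G⁻¹ * Jᵀ⁻¹) * (Jᵀ * (Rᵀ * J)) = J⁻¹ * (G⁻¹ * (Jᵀ⁻¹ * Jᵀ) * Rᵀ * J) := by
          simp only [Matrix.mul_assoc]
      _ = J⁻¹ * (G⁻¹ * Rᵀ * J) := by rw [this, Matrix.mul_one]
  rw [e1, Matrix.trace_mul_comm, Matrix.mul_assoc, Matrix.mul_nonsing_inv _ h1, Matrix.mul_one]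

theorem scal_DG {E F : ℝ → ℝ} {r : ℝ} (hE : ContDiffAt ℝ ∞ E r) (hF : ContDiffAt ℝ ∞ F r)
    (hE0 : 0 < E r) (hF0 : 0 < F r) :
    ((DG E F (pt r))⁻¹ * (Ric (DG E F) (pt r))ᵀ).trace = 4 * Krf E F r + 2 * Kff E F r := by
  have hpos : ∀ k, 0 < dgv E F k (pt r) := fun k => by
    rw [dgv_pt]; exact cA_pos hE0 hF0 k
  have hinv : (DG E F (pt r))⁻¹ = Matrix.diagonal fun i => (dgv E F i (pt r))⁻¹ := by
    apply Matrix.inv_eq_right_inv
    rw [DG, Matrix.diagonal_mul_diagonal]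
    rw [← Matrix.diagonal_one]
    refine congrArg _ (funext fun i => ?_)
    exact mul_inv_cancel₀ (hpos i).ne'
  have hric : (Ric (DG E F) (pt r))ᵀ = Matrix.diagonal fun i => dgv E F i (pt r) * RR E F r i := by
    ext i j
    rw [Matrix.transpose_apply, Ric_DG hE hF hE0 hF0, Matrix.diagonal_apply]
    by_cases h : i = j
    · subst h; simp
    · rw [if_neg h, if_neg (Ne.symm h)]
  rw [hinv, hric, Matrix.diagonal_mul_diagonal, Matrix.trace_diagonal]
  have : ∀ i, (dgv E F i (pt r))⁻¹ * (dgv E F i (pt r) * RR E F r i) = RR E F r i := fun i => by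
    rw [← mul_assoc, inv_mul_cancel₀ (hpos i).ne', one_mul]
  rw [Fin.sum_univ_three, this, this, this]
  simp [RR]
  ring

end

/-- TARGET G2 -/
theorem stScal : StScal := by
  intro α β O c hO hI hα hβ hpos hc e he
  have hsm : ∀ i j, ContDiff ℝ ∞ (fun y => pullA (Pinv e) α β y i j) := by
    obtain ⟨htar, P, R, O', hP, hO', hR, hPO, hRP, hPe, hsrc, hRe, hPR, hsum⟩ := chart_pkg e he
    have hPinv : Pinv e = P := by
      funext y; exact hPe y
    rw [hPinv]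
    exact pullA_smooth hP hsum hO hI hα hβ
  have hdet := pullA_det e he hO hI hα hβ hpos
  have hcont : Continuous (fun y => Scal (pullA (Pinv e) α β) y) := by
    unfold Scal
    refine continuous_finset_sum _ fun i _ => continuous_finset_sum _ fun j _ => ?_
    exact (inv_cont hsm hdet i j).mul (ric_cont hsm hdet i j)
  have hclosed : IsClosed {y | c ≤ Scal (pullA (Pinv e) α β) y} := isClosed_le continuous_const hcont
  have hsub : {y : Eu 3 | Pinv e y 0 ∈ Ioo (-1 : ℝ) 1} ⊆ {y | c ≤ Scal (pullA (Pinv e) α β) y} := by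
    intro y hy
    obtain ⟨J, hJ, h1, h2⟩ := ric_good e he hO hI hα hβ hpos y hy
    show c ≤ Scal (pullA (Pinv e) α β) y
    rw [Scal, dot_trace, ← scal_conj hJ, h1, h2, scal_DG (Ef_smooth hO hI hα hβ hy)
      (Ff_smooth hO hI hα hy) (Ef_pos hpos hy) (Ff_pos hpos hy)]
    exact hc _ hy
  intro y
  have := hclosed.closure_subset_iff.2 hsub
  rw [(good_dense e he).closure_eq] at this
  exact this (mem_univ y)

/-- TARGET G3 -/
theorem stRicci : StRicci := by
  intro t₁ t₂ α β O hO hI hα hβ hpos hE hF e he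
  obtain ⟨htar, P, R, O', hP, hO', hR, hPO, hRP, hPe, hsrc, hRe, hPR, hsum⟩ := chart_pkg e he
  have hPinv : Pinv e = P := by
    funext y; exact hPe y
  have hmemI : ∀ y, P y 0 ∈ Icc (-1 : ℝ) 1 := fun y => x0_mem (hsum y)
  refine ⟨?_, ?_⟩
  · rw [hPinv]
    intro i j
    have hmap : MapsTo (fun p : ℝ × Eu 3 => (p.1, P p.2 0)) (Ioo t₁ t₂ ×ˢ univ) O :=
      fun p hp => hI ⟨hp.1, hmemI p.2⟩
    have hsmap : ContDiffOn ℝ ∞ (fun p : ℝ × Eu 3 => (p.1, P p.2 0)) (Ioo t₁ t₂ ×ˢ univ) :=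
      (contDiff_fst.prodMk ((contDiff_pi.1 hP 0).comp contDiff_snd)).contDiffOn
    have cα := hα.comp hsmap hmap
    have cβ := hβ.comp hsmap hmap
    have e1 : (fun p : ℝ × Eu 3 => pullA P (α p.1) (β p.1) p.2 i j) = fun p =>
        α p.1 (P p.2 0) * d4 (fun a => JP P p.2 a i) (fun a => JP P p.2 a j)
        + β p.1 (P p.2 0) * (JP P p.2 0 i * JP P p.2 0 j) := by
      funext p; exact pullA_entry _ _ _ _ _ _
    rw [e1]
    have c1 : ContDiffOn ℝ ∞ (fun p : ℝ × Eu 3 => d4 (fun a => JP P p.2 a i) (fun a => JP P p.2 a j))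
        (Ioo t₁ t₂ ×ˢ univ) := ((d4_smooth hP i j).comp contDiff_snd).contDiffOn
    have c2 : ContDiffOn ℝ ∞ (fun p : ℝ × Eu 3 => JP P p.2 0 i * JP P p.2 0 j)
        (Ioo t₁ t₂ ×ˢ univ) :=
      (((contDiff_JP hP 0 i).mul (contDiff_JP hP 0 j)).comp contDiff_snd).contDiffOn
    exact (cα.mul c1).add (cβ.mul c2)
  · intro t ht
    set Ot : Set ℝ := {s | (t, s) ∈ O} with hOt
    have hOto : IsOpen Ot := hO.preimage (by fun_prop)
    have hOtI : Icc (-1 : ℝ) 1 ⊆ Ot := fun s hs => hI ⟨ht, hs⟩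
    -- time derivatives
    have hslice : ∀ {X : ℝ → ℝ → ℝ}, ContDiffOn ℝ ∞ (fun p : ℝ × ℝ => X p.1 p.2) O →
        ContDiffOn ℝ ∞ (X t) Ot := by
      intro X hX
      have : ContDiffOn ℝ ∞ (fun s : ℝ => (t, s)) Ot := (contDiff_const.prodMk contDiff_id).contDiffOn
      exact hX.comp this (fun s hs => hs)
    have htime : ∀ {X : ℝ → ℝ → ℝ}, ContDiffOn ℝ ∞ (fun p : ℝ × ℝ => X p.1 p.2) O →
        ∀ s ∈ Ot, HasDerivAt (fun τ => X τ s)
          (fderiv ℝ (fun p : ℝ × ℝ => X p.1 p.2) (t, s) (1, 0)) t := by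
      intro X hX s hs
      have h1 : DifferentiableAt ℝ (fun p : ℝ × ℝ => X p.1 p.2) (t, s) :=
        (hX.contDiffAt (hO.mem_nhds hs)).differentiableAt (by simp)
      have h2 : HasDerivAt (fun τ : ℝ => ((τ, s) : ℝ × ℝ)) ((1, 0) : ℝ × ℝ) t :=
        (hasDerivAt_id t).prodMk (hasDerivAt_const t s)
      exact h1.hasFDerivAt.comp_hasDerivAt t h2
    have hcont : ∀ {X : ℝ → ℝ → ℝ}, ContDiffOn ℝ ∞ (fun p : ℝ × ℝ => X p.1 p.2) O →
        ContinuousOn (fun s => fderiv ℝ (fun p : ℝ × ℝ => X p.1 p.2) (t, s) (1, 0))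
          (Icc (-1 : ℝ) 1) := by
      intro X hX
      have h1 := hX.continuousOn_fderiv_of_isOpen hO (by simp)
      have h2 : ContinuousOn (fun s : ℝ => fderiv ℝ (fun p : ℝ × ℝ => X p.1 p.2) (t, s))
          (Icc (-1 : ℝ) 1) :=
        h1.comp (by fun_prop) (fun s hs => hI ⟨ht, hs⟩)
      exact h2.clm_apply continuousOn_const
    set αd : ℝ → ℝ := fun s => fderiv ℝ (fun p : ℝ × ℝ => α p.1 p.2) (t, s) (1, 0) with hαd
    set βd : ℝ → ℝ := fun s => fderiv ℝ (fun p : ℝ × ℝ => β p.1 p.2) (t, s) (1, 0) with hβd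
    have hder : ∀ y i j, HasDerivAt (fun τ => pullA (Pinv e) (α τ) (β τ) y i j)
        (pullA (Pinv e) αd βd y i j) t := by
      intro y i j
      rw [hPinv, pullA_entry]
      have e1 : (fun τ => pullA P (α τ) (β τ) y i j) = fun τ =>
          α τ (P y 0) * d4 (fun a => JP P y a i) (fun a => JP P y a j)
          + β τ (P y 0) * (JP P y 0 i * JP P y 0 j) := by
        funext τ; exact pullA_entry _ _ _ _ _ _
      rw [e1]
      exact ((htime hα _ (hOtI (hmemI y))).mul_const _).add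
        ((htime hβ _ (hOtI (hmemI y))).mul_const _)
    have hsα := hslice hα
    have hsβ := hslice hβ
    have hgood : ∀ y, Pinv e y 0 ∈ Ioo (-1 : ℝ) 1 →
        pullA (Pinv e) αd βd y = (-2 : ℝ) • Ric (pullA (Pinv e) (α t) (β t)) y := by
      intro y hy
      obtain ⟨J, hJ, h1, h2⟩ := ric_good e he hOto hOtI hsα hsβ (hpos t ht) y hy
      refine conj_cancel hJ ?_
      rw [h1, Matrix.mul_smul, Matrix.smul_mul, h2]
      set r := Pinv e y 0 with hr
      have hrO : r ∈ Ot := hOtI ⟨hy.1.le, hy.2.le⟩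
      have dE : HasDerivAt (fun s => Ef (α s) (β s) r) (Ef αd βd r) t := by
        unfold Ef
        exact ((htime hα r hrO).div_const _).add (htime hβ r hrO)
      have dF : HasDerivAt (fun s => Ff (α s) r) (Ff αd r) t := by
        unfold Ff
        exact (htime hα r hrO).mul_const _
      have eE := dE.unique (hE t ht r hy)
      have eF := dF.unique (hF t ht r hy)
      have sg0 : sg 0 0 = 1 := by simp [sg]
      have smE := Ef_smooth hOto hOtI hsα hsβ hy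
      have smF := Ff_smooth hOto hOtI hsα hy
      ext i j
      rw [Matrix.smul_apply, Ric_DG smE smF (Ef_pos (hpos t ht) hy) (Ff_pos (hpos t ht) hy),
        smul_eq_mul]
      by_cases hij : i = j
      · subst hij
        rw [if_pos rfl, DG, Matrix.diagonal_apply_eq]
        fin_cases i
        · show Ef αd βd (pt r 0) = -2 * (Ef (α t) (β t) (pt r 0) * RR _ _ r 0)
          have h0 : pt r 0 = r := by simp [pt]
          rw [h0, eE, RR, if_pos rfl]
          ring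
        · show Ff αd (pt r 0) * sg 0 0 = -2 * (Ff (α t) (pt r 0) * sg 0 0 * RR _ _ r 1)
          have h0 : pt r 0 = r := by simp [pt]
          rw [h0, eF, RR, if_neg (by decide), sg0]
          ring
        · show Ff αd (pt r 0) * sg 0 0 = -2 * (Ff (α t) (pt r 0) * sg 0 0 * RR _ _ r 2)
          have h0 : pt r 0 = r := by simp [pt]
          rw [h0, eF, RR, if_neg (by decide), sg0]
          ring
      · rw [if_neg hij, DG, Matrix.diagonal_apply_ne _ hij, mul_zero]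
    intro y i j
    have hfun : (fun y => pullA (Pinv e) αd βd y i j) =
        fun y => -2 * Ric (pullA (Pinv e) (α t) (β t)) y i j := by
      refine Continuous.ext_on (good_dense e he) ?_ ?_ ?_
      · rw [hPinv]
        exact pullA_cont hP hsum (hcont hα) (hcont hβ) i j
      · refine continuous_const.mul (ric_cont ?_ (pullA_det e he hOto hOtI hsα hsβ (hpos t ht)) i j)
        rw [hPinv]
        exact pullA_smooth hP hsum hOto hOtI hsα hsβ
      · intro y hy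
        simp only
        rw [hgood y hy, Matrix.smul_apply, smul_eq_mul]
    have h3 : pullA (Pinv e) αd βd y i j =
        -2 * Ric (pullA (Pinv e) (α t) (β t)) y i j := congrFun hfun y
    rw [← h3]
    exact hder y i j

end Pool.Agent.N564.RF3
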